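import Mathlib
import Pool.Agent.V11101.BmoCtor

/-!
# Without a common quasi-triangle constant, `BMO ↪ BMO_X` does not imply `BMO_X ↪ BMO`
-/

open MeasureTheory Set Metric Filter Topology
open scoped ENNReal NNReal

namespace Pool.Agent.Results.MP_ea8870_an.NonUniform

open Pool.Agent.V11101.BmoX

variable {n : ℕ}

/-- the coordinate function -/
noncomputable def f₀ (hn : 0 < n) (x : Fin n → ℝ) : ℝ := x ⟨0, hn⟩

/-- the threshold -/
noncomputable def thr (hn : 0 < n) (Q : Cube n) : ℝ≥0∞ :=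
  Q.vol {x | min (1 / 2) (Q.r / 2) < |x ⟨0, hn⟩ - Q.c ⟨0, hn⟩|}

/-- the small constant -/
noncomputable def ep (Q : Cube n) : ℝ≥0∞ := ENNReal.ofReal (1 / (1 + Q.r))

/-- a value of the decreasing rearrangement: `g*(thr Q)` -/
noncomputable def q (hn : 0 < n) (Q : Cube n) (g : (Fin n → ℝ) → ℝ) : ℝ≥0∞ :=
  ⨆ (t : ℝ≥0∞) (_ : thr hn Q < Q.vol {x | t < ‖g x‖ₑ}), t

/-- the mean of `|g|` -/
noncomputable def av (Q : Cube n) (g : (Fin n → ℝ) → ℝ) : ℝ≥0∞ :=
  (volume Q.set)⁻¹ * ∫⁻ x in Q.set, ‖g x‖ₑ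

/-- the quasi-norm -/
noncomputable def NN (hn : 0 < n) (Q : Cube n) (g : (Fin n → ℝ) → ℝ) : ℝ≥0∞ :=
  ep Q * av Q g + q hn Q g

lemma q_mono (hn : 0 < n) (Q : Cube n) {f g : (Fin n → ℝ) → ℝ}
    (h : ∀ᵐ x ∂Q.vol, ‖f x‖ₑ ≤ ‖g x‖ₑ) : q hn Q f ≤ q hn Q g := by
  refine iSup₂_le fun t ht => ?_
  refine le_iSup₂_of_le t (ht.trans_le ?_) le_rfl
  refine measure_mono_ae ?_
  filter_upwards [h] with x hx hxt
  exact lt_of_lt_of_le hxt hx

lemma q_smul_le (hn : 0 < n) (Q : Cube n) (a : ℝ) (f : (Fin n → ℝ) → ℝ) :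
    q hn Q (fun x => a * f x) ≤ ‖a‖ₑ * q hn Q f := by
  refine iSup₂_le fun t ht => ?_
  rcases eq_or_ne a 0 with rfl | ha
  · have : {x : Fin n → ℝ | t < ‖(0 : ℝ) * f x‖ₑ} = ∅ := by
      rw [Set.eq_empty_iff_forall_notMem]
      intro x hx
      have hx' : t < ‖(0 : ℝ) * f x‖ₑ := hx
      rw [zero_mul, enorm_zero] at hx'
      exact not_lt_zero hx'
    rw [this, measure_empty] at ht
    exact absurd ht not_lt_zero
  have ha0 : ‖a‖ₑ ≠ 0 := by simpa using ha
  have hat : ‖a‖ₑ ≠ ∞ := enorm_ne_top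
  have hset : {x : Fin n → ℝ | t < ‖a * f x‖ₑ} = {x | t / ‖a‖ₑ < ‖f x‖ₑ} := by
    ext x
    simp only [mem_ofPred_eq]
    rw [enorm_mul, ENNReal.div_lt_iff (Or.inl ha0) (Or.inl hat), mul_comm]
  rw [hset] at ht
  have h1 : t / ‖a‖ₑ ≤ q hn Q f := le_iSup₂_of_le (t / ‖a‖ₑ) ht le_rfl
  calc t = ‖a‖ₑ * (t / ‖a‖ₑ) := (ENNReal.mul_div_cancel ha0 hat).symm
    _ ≤ _ := mul_le_mul_right h1 _

lemma q_smul (hn : 0 < n) (Q : Cube n) (a : ℝ) (f : (Fin n → ℝ) → ℝ) :
    q hn Q (fun x => a * f x) = ‖a‖ₑ * q hn Q f := by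
  refine le_antisymm (q_smul_le hn Q a f) ?_
  rcases eq_or_ne a 0 with rfl | ha
  · rw [enorm_zero, zero_mul]; exact zero_le
  have h1 := q_smul_le hn Q a⁻¹ (fun x => a * f x)
  have h2 : (fun x => a⁻¹ * (a * f x)) = f := by
    ext x; rw [← mul_assoc, inv_mul_cancel₀ ha, one_mul]
  rw [h2] at h1
  calc ‖a‖ₑ * q hn Q f ≤ ‖a‖ₑ * (‖a⁻¹‖ₑ * q hn Q fun x => a * f x) := mul_le_mul_right h1 _
    _ = q hn Q fun x => a * f x := by
        rw [← mul_assoc, ← enorm_mul, mul_inv_cancel₀ ha, enorm_one, one_mul]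

/-- the two subcubes -/
lemma sub_p (Q : Cube n) :
    closedBall (fun i => Q.c i + 3 / 4 * Q.r) (1 / 8 * Q.r) ⊆ Q.set := by
  have hr := Q.pos
  rw [Q.set_eq]
  refine closedBall_subset_closedBall' ?_
  have : dist (fun i => Q.c i + 3 / 4 * Q.r) Q.c ≤ 3 / 4 * Q.r := by
    rw [dist_pi_le_iff (by positivity)]
    intro i
    show |Q.c i + 3 / 4 * Q.r - Q.c i| ≤ _
    rw [add_sub_cancel_left, abs_of_pos (by positivity)]
  linarith

lemma sub_m (Q : Cube n) :
    closedBall (fun i => Q.c i - 3 / 4 * Q.r) (1 / 8 * Q.r) ⊆ Q.set := by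
  have hr := Q.pos
  rw [Q.set_eq]
  refine closedBall_subset_closedBall' ?_
  have : dist (fun i => Q.c i - 3 / 4 * Q.r) Q.c ≤ 3 / 4 * Q.r := by
    rw [dist_pi_le_iff (by positivity)]
    intro i
    show |Q.c i - 3 / 4 * Q.r - Q.c i| ≤ _
    rw [sub_sub_cancel_left, abs_neg, abs_of_pos (by positivity)]
  linarith

/-- the proportion of the subcubes -/
noncomputable def kap (n : ℕ) : ℝ≥0∞ := ENNReal.ofReal ((1 / 8) ^ n)

lemma kap_ne_zero (n : ℕ) : kap n ≠ 0 := by unfold kap; positivity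

lemma kap_ne_top (n : ℕ) : kap n ≠ ∞ := ENNReal.ofReal_ne_top

lemma thr_ge (hn : 0 < n) (Q : Cube n) : kap n * volume Q.set ≤ thr hn Q := by
  have hr := Q.pos
  have h1 : closedBall (fun i => Q.c i + 3 / 4 * Q.r) (1 / 8 * Q.r) ⊆
      {x | min (1 / 2) (Q.r / 2) < |x ⟨0, hn⟩ - Q.c ⟨0, hn⟩|} ∩ Q.set := by
    intro x hx
    refine ⟨?_, sub_p Q hx⟩
    rw [mem_closedBall, dist_pi_le_iff (by positivity)] at hx
    have h2 := hx ⟨0, hn⟩
    rw [Real.dist_eq, abs_le] at h2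
    show min (1 / 2) (Q.r / 2) < |x ⟨0, hn⟩ - Q.c ⟨0, hn⟩|
    refine lt_of_le_of_lt (min_le_right _ _) (lt_of_lt_of_le ?_ (le_abs_self _))
    linarith [h2.1]
  unfold thr kap
  rw [Measure.restrict_apply' Q.measurableSet]
  refine le_trans (le_of_eq ?_) (measure_mono h1)
  rw [vol_ball_mul _ Q.c hr.le (by norm_num), ← Q.set_eq]

lemma thr_lt (hn : 0 < n) (Q : Cube n) : thr hn Q < volume Q.set := by
  have hr := Q.pos
  set m := min (1 / 2) (Q.r / 2) with hm
  have hm0 : 0 < m := lt_min (by norm_num) (by positivity)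
  have hmr : m ≤ Q.r := (min_le_right _ _).trans (by linarith)
  have hsub : closedBall Q.c m ⊆ Q.set := by
    rw [Q.set_eq]; exact closedBall_subset_closedBall hmr
  have h1 : {x | m < |x ⟨0, hn⟩ - Q.c ⟨0, hn⟩|} ∩ Q.set ⊆ Q.set \ closedBall Q.c m := by
    rintro x ⟨hx, hxQ⟩
    refine ⟨hxQ, fun hxb => ?_⟩
    rw [mem_closedBall, dist_pi_le_iff hm0.le] at hxb
    have h2 := hxb ⟨0, hn⟩
    rw [Real.dist_eq] at h2
    exact absurd (show m < |x ⟨0, hn⟩ - Q.c ⟨0, hn⟩| from hx) (not_lt.2 h2)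
  unfold thr
  rw [Measure.restrict_apply' Q.measurableSet]
  refine lt_of_le_of_lt (measure_mono h1) ?_
  rw [measure_sdiff hsub isClosed_closedBall.measurableSet.nullMeasurableSet
    (vol_ball_lt_top _ _).ne]
  exact ENNReal.sub_lt_self Q.vol_lt_top.ne Q.vol_pos.ne' (vol_ball_pos _ hm0).ne'

/-- Chebyshev -/
lemma q_le (hn : 0 < n) (Q : Cube n) {g : (Fin n → ℝ) → ℝ} (hg : AEMeasurable g Q.vol) :
    q hn Q g ≤ (kap n)⁻¹ * av Q g := by
  refine iSup₂_le fun t ht => ?_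
  have h1 : t * (kap n * volume Q.set) ≤ ∫⁻ x in Q.set, ‖g x‖ₑ := by
    calc t * (kap n * volume Q.set) ≤ t * Q.vol {x | t ≤ ‖g x‖ₑ} := by
          refine mul_le_mul_right ((thr_ge hn Q).trans (ht.le.trans (measure_mono ?_))) _
          intro x hx
          exact le_of_lt (show t < ‖g x‖ₑ from hx)
      _ ≤ _ := mul_meas_ge_le_lintegral₀ hg.enorm t
  have h2 : (kap n)⁻¹ * ((volume Q.set)⁻¹ * (t * (kap n * volume Q.set))) = t := by
    have e : (kap n)⁻¹ * ((volume Q.set)⁻¹ * (t * (kap n * volume Q.set))) =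
      ((kap n)⁻¹ * kap n) * ((volume Q.set)⁻¹ * volume Q.set) * t := by ring
    rw [e, ENNReal.inv_mul_cancel (kap_ne_zero n) (kap_ne_top n),
      ENNReal.inv_mul_cancel Q.vol_pos.ne' Q.vol_lt_top.ne, one_mul, one_mul]
  rw [← h2]
  exact mul_le_mul_right (mul_le_mul_right h1 _) _

lemma ep_ne_zero (Q : Cube n) : ep Q ≠ 0 := by
  have := Q.pos
  unfold ep
  positivity

lemma ep_le_one (Q : Cube n) : ep Q ≤ 1 := by
  have := Q.pos
  unfold ep
  rw [ENNReal.ofReal_le_one, div_le_one (by positivity)]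
  linarith

lemma NN_le (hn : 0 < n) (Q : Cube n) {g : (Fin n → ℝ) → ℝ} (hg : AEMeasurable g Q.vol) :
    NN hn Q g ≤ (1 + (kap n)⁻¹) * av Q g := by
  unfold NN
  rw [add_mul]
  exact add_le_add (mul_le_mul_left (ep_le_one Q) _) (q_le hn Q hg)

lemma av_smul (Q : Cube n) (a : ℝ) (g : (Fin n → ℝ) → ℝ) :
    av Q (fun x => a * g x) = ‖a‖ₑ * av Q g := by
  unfold av
  simp only [enorm_mul]
  rw [lintegral_const_mul' _ _ enorm_ne_top]
  ring

lemma q_fatou (hn : 0 < n) (Q : Cube n) (f : ℕ → (Fin n → ℝ) → ℝ) (g : (Fin n → ℝ) → ℝ)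
    (hf : ∀ k, AEMeasurable (f k) Q.vol) (hg : AEMeasurable g Q.vol)
    (hmono : ∀ᵐ x ∂Q.vol, ∀ k, 0 ≤ f k x ∧ f k x ≤ f (k + 1) x)
    (hlim : ∀ᵐ x ∂Q.vol, Tendsto (fun k => f k x) atTop (𝓝 (g x))) :
    q hn Q g = ⨆ k, q hn Q (f k) := by
  classical
  have hle : ∀ᵐ x ∂Q.vol, ∀ k, ‖f k x‖ₑ ≤ ‖g x‖ₑ := by
    filter_upwards [hmono, hlim] with x hx hx' k
    have h1 : Monotone fun k => f k x := monotone_nat_of_le_succ fun k => (hx k).2
    have h2 := h1.ge_of_tendsto hx' k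
    rw [Real.enorm_of_nonneg (hx k).1, Real.enorm_of_nonneg ((hx k).1.trans h2)]
    exact ENNReal.ofReal_le_ofReal h2
  refine le_antisymm (iSup₂_le fun t ht => ?_) (iSup_le fun k => q_mono hn Q ?_)
  · -- monotone convergence for the measures of the level sets
    have hns : ∀ k, NullMeasurableSet {x | t < ‖f k x‖ₑ} Q.vol := fun k =>
      nullMeasurableSet_lt aemeasurable_const (hf k).enorm
    have hns' : NullMeasurableSet {x | t < ‖g x‖ₑ} Q.vol :=
      nullMeasurableSet_lt aemeasurable_const hg.enorm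
    have h1 := lintegral_tendsto_of_tendsto_of_monotone (μ := Q.vol)
      (f := fun k => ({x | t < ‖f k x‖ₑ} : Set (Fin n → ℝ)).indicator (fun _ => (1 : ℝ≥0∞)))
      (F := ({x | t < ‖g x‖ₑ} : Set (Fin n → ℝ)).indicator (fun _ => (1 : ℝ≥0∞)))
      (fun k => aemeasurable_const.indicator₀ (hns k))
      (by
        filter_upwards [hmono] with x hx
        refine monotone_nat_of_le_succ fun k => ?_
        have h2 : ‖f k x‖ₑ ≤ ‖f (k + 1) x‖ₑ := by
          rw [Real.enorm_of_nonneg (hx k).1, Real.enorm_of_nonneg (hx (k + 1)).1]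
          exact ENNReal.ofReal_le_ofReal (hx k).2
        by_cases h : x ∈ ({x | t < ‖f k x‖ₑ} : Set (Fin n → ℝ))
        · have h' : x ∈ ({x | t < ‖f (k + 1) x‖ₑ} : Set (Fin n → ℝ)) :=
            lt_of_lt_of_le (show t < ‖f k x‖ₑ from h) h2
          rw [Set.indicator_of_mem h, Set.indicator_of_mem h']
        · rw [Set.indicator_of_notMem h]; exact zero_le)
      (by
        filter_upwards [hlim, hle] with x hx hx'
        by_cases h : x ∈ ({x | t < ‖g x‖ₑ} : Set (Fin n → ℝ))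
        · rw [Set.indicator_of_mem h]
          have h3 : ∀ᶠ k in atTop, t < ‖f k x‖ₑ := hx.enorm.eventually_const_lt h
          refine tendsto_const_nhds.congr' ?_
          filter_upwards [h3] with k hk
          have hk' : x ∈ ({x | t < ‖f k x‖ₑ} : Set (Fin n → ℝ)) := hk
          rw [Set.indicator_of_mem hk']
        · rw [Set.indicator_of_notMem h]
          refine tendsto_const_nhds.congr fun k => ?_
          refine (Set.indicator_of_notMem (fun hk => h ?_) _).symm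
          exact lt_of_lt_of_le hk (hx' k))
    have e1 : ∀ k, ∫⁻ x, ({x | t < ‖f k x‖ₑ} : Set (Fin n → ℝ)).indicator
        (fun _ => (1 : ℝ≥0∞)) x ∂Q.vol = Q.vol {x | t < ‖f k x‖ₑ} := fun k =>
      lintegral_indicator_one₀ (hns k)
    have e2 : ∫⁻ x, ({x | t < ‖g x‖ₑ} : Set (Fin n → ℝ)).indicator
        (fun _ => (1 : ℝ≥0∞)) x ∂Q.vol = Q.vol {x | t < ‖g x‖ₑ} := lintegral_indicator_one₀ hns'
    rw [e2] at h1
    simp only [e1] at h1
    obtain ⟨k, hk⟩ := (h1.eventually_const_lt ht).exists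
    exact le_iSup_of_le k (le_iSup₂_of_le t hk le_rfl)
  · filter_upwards [hle] with x hx
    exact hx k

lemma av_fatou (Q : Cube n) (f : ℕ → (Fin n → ℝ) → ℝ) (g : (Fin n → ℝ) → ℝ)
    (hf : ∀ k, AEMeasurable (f k) Q.vol)
    (hmono : ∀ᵐ x ∂Q.vol, ∀ k, 0 ≤ f k x ∧ f k x ≤ f (k + 1) x)
    (hlim : ∀ᵐ x ∂Q.vol, Tendsto (fun k => f k x) atTop (𝓝 (g x))) :
    Tendsto (fun k => av Q (f k)) atTop (𝓝 (av Q g)) := by
  unfold av
  refine ENNReal.Tendsto.const_mul ?_ (Or.inr (ENNReal.inv_ne_top.2 Q.vol_pos.ne'))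
  refine lintegral_tendsto_of_tendsto_of_monotone (fun k => (hf k).enorm) ?_ ?_
  · filter_upwards [hmono] with x hx
    refine monotone_nat_of_le_succ fun k => ?_
    rw [Real.enorm_of_nonneg (hx k).1, Real.enorm_of_nonneg (hx (k + 1)).1]
    exact ENNReal.ofReal_le_ofReal (hx k).2
  · filter_upwards [hlim] with x hx
    exact hx.enorm

lemma av_mono (Q : Cube n) {f g : (Fin n → ℝ) → ℝ} (h : ∀ᵐ x ∂Q.vol, ‖f x‖ₑ ≤ ‖g x‖ₑ) :
    av Q f ≤ av Q g := mul_le_mul_right (lintegral_mono_ae h) _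

lemma av_add_le (Q : Cube n) {f g : (Fin n → ℝ) → ℝ} (hf : AEMeasurable f Q.vol) :
    av Q (fun x => f x + g x) ≤ av Q f + av Q g := by
  unfold av
  rw [← mul_add, ← lintegral_add_left' hf.enorm]
  exact mul_le_mul_right (lintegral_mono fun x => enorm_add_le _ _) _

lemma le_NN (hn : 0 < n) (Q : Cube n) (g : (Fin n → ℝ) → ℝ) : ep Q * av Q g ≤ NN hn Q g :=
  le_self_add

/-- the family -/
noncomputable def X (hn : 0 < n) : Family n := fun Q =>
  { N := NN hn Q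
    mono := by
      intro f g _ _ hfg
      have h : ∀ᵐ x ∂Q.vol, ‖f x‖ₑ ≤ ‖g x‖ₑ := by
        filter_upwards [hfg] with x hx
        rw [← Real.norm_eq_abs, ← Real.norm_eq_abs] at hx
        exact enorm_le_iff_norm_le.2 hx
      exact add_le_add (mul_le_mul_right (av_mono Q h) _) (q_mono hn Q h)
    smul := by
      intro a f _
      unfold NN
      rw [q_smul, av_smul, ← Real.enorm_eq_ofReal_abs]
      ring
    quasi := by
      have hA : (ep Q)⁻¹ * (1 + (kap n)⁻¹) ≠ ∞ := ENNReal.mul_ne_top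
        (ENNReal.inv_ne_top.2 (ep_ne_zero Q)) (ENNReal.add_ne_top.2
          ⟨by norm_num, ENNReal.inv_ne_top.2 (kap_ne_zero n)⟩)
      refine ⟨((ep Q)⁻¹ * (1 + (kap n)⁻¹)).toNNReal, fun f g hf hg => ?_⟩
      rw [ENNReal.coe_toNNReal hA]
      have hept : ep Q ≠ ∞ := ENNReal.ofReal_ne_top
      have hav : ∀ g, av Q g ≤ (ep Q)⁻¹ * NN hn Q g := by
        intro g
        calc av Q g = (ep Q)⁻¹ * (ep Q * av Q g) := by
              rw [← mul_assoc, ENNReal.inv_mul_cancel (ep_ne_zero Q) hept, one_mul]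
          _ ≤ _ := mul_le_mul_right (le_NN hn Q g) _
      calc NN hn Q (fun x => f x + g x) ≤ (1 + (kap n)⁻¹) * av Q (fun x => f x + g x) :=
            NN_le hn Q (hf.add hg)
        _ ≤ (1 + (kap n)⁻¹) * ((ep Q)⁻¹ * NN hn Q f + (ep Q)⁻¹ * NN hn Q g) := by
            refine mul_le_mul_right ((av_add_le Q hf).trans ?_) _
            exact add_le_add (hav f) (hav g)
        _ = _ := by ring
    eq_zero := by
      intro f hf h0
      have h1 : ep Q * av Q f = 0 := le_antisymm ((le_NN hn Q f).trans h0.le) zero_le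
      rcases mul_eq_zero.1 h1 with h | h
      · exact absurd h (ep_ne_zero Q)
      · unfold av at h
        rcases mul_eq_zero.1 h with h | h
        · exact absurd h (ENNReal.inv_ne_zero.2 Q.vol_lt_top.ne)
        · rw [lintegral_eq_zero_iff' hf.enorm] at h
          filter_upwards [h] with x hx
          exact enorm_eq_zero.1 hx
    unit := by
      refine ⟨fun _ => 1, aemeasurable_const, ?_, Eventually.of_forall fun _ => one_pos⟩
      refine (NN_le hn Q aemeasurable_const).trans_lt ?_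
      refine ENNReal.mul_lt_top (ENNReal.add_lt_top.2
        ⟨by norm_num, (ENNReal.inv_ne_top.2 (kap_ne_zero n)).lt_top⟩) ?_
      unfold av
      simp only [enorm_one]
      rw [lintegral_one, Measure.restrict_apply_univ,
        ENNReal.inv_mul_cancel Q.vol_pos.ne' Q.vol_lt_top.ne]
      exact ENNReal.one_lt_top
    fatou := by
      intro f g hf hg hmono hlim
      have hmono' : ∀ᵐ x ∂Q.vol, ∀ k, 0 ≤ f k x ∧ f k x ≤ f (k + 1) x := ae_all_iff.2 hmono
      have hstep : ∀ k, ∀ᵐ x ∂Q.vol, ‖f k x‖ₑ ≤ ‖f (k + 1) x‖ₑ := by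
        intro k
        filter_upwards [hmono'] with x hx
        rw [Real.enorm_of_nonneg (hx k).1, Real.enorm_of_nonneg (hx (k + 1)).1]
        exact ENNReal.ofReal_le_ofReal (hx k).2
      have hm1 : Monotone fun k => ep Q * av Q (f k) := monotone_nat_of_le_succ fun k =>
        mul_le_mul_right (av_mono Q (hstep k)) _
      have hm2 : Monotone fun k => q hn Q (f k) := monotone_nat_of_le_succ fun k =>
        q_mono hn Q (hstep k)
      have h1 : ep Q * av Q g = ⨆ k, ep Q * av Q (f k) := by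
        refine tendsto_nhds_unique (ENNReal.Tendsto.const_mul (av_fatou Q f g hf hmono' hlim)
          (Or.inr ENNReal.ofReal_ne_top)) (tendsto_atTop_iSup hm1)
      have h2 := q_fatou hn Q f g hf hg hmono' hlim
      unfold NN
      rw [h1, h2, ENNReal.iSup_add_iSup_of_monotone hm1 hm2]
    complete := by
      refine complete_of_equiv Q (NN hn Q) (c := ep Q * (volume Q.set)⁻¹)
        (C := (1 + (kap n)⁻¹) * (volume Q.set)⁻¹)
        (mul_ne_zero (ep_ne_zero Q) (ENNReal.inv_ne_zero.2 Q.vol_lt_top.ne))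
        (ENNReal.mul_ne_top (ENNReal.add_ne_top.2 ⟨by norm_num,
          ENNReal.inv_ne_top.2 (kap_ne_zero n)⟩) (ENNReal.inv_ne_top.2 Q.vol_pos.ne'))
        (fun f _ => ?_) (fun f hf => ?_)
      · rw [mul_assoc]; exact le_NN hn Q f
      · rw [mul_assoc]; exact NN_le hn Q hf }

lemma X_N (hn : 0 < n) (Q : Cube n) (g : (Fin n → ℝ) → ℝ) : (X hn Q).N g = NN hn Q g := rfl

lemma normalized_X (hn : 0 < n) : Normalized (X hn) := by
  refine ⟨1, 1 + (kap n)⁻¹, one_pos, ENNReal.add_lt_top.2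
        ⟨by norm_num, (ENNReal.inv_ne_top.2 (kap_ne_zero n)).lt_top⟩, fun Q => ⟨?_, ?_⟩⟩
  · rw [X_N]
    refine le_trans ?_ (le_add_self : q hn Q (fun _ => 1) ≤ NN hn Q (fun _ => 1))
    refine le_of_forall_lt fun t ht => ?_
    obtain ⟨t', h1, h2⟩ := exists_between ht
    refine h1.trans_le (le_iSup₂_of_le t' ?_ le_rfl)
    have : {x : Fin n → ℝ | t' < ‖(1 : ℝ)‖ₑ} = univ := by
      refine eq_univ_of_forall fun x => ?_
      show t' < ‖(1 : ℝ)‖ₑ
      rwa [enorm_one]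
    rw [this, Measure.restrict_apply_univ]
    exact thr_lt hn Q
  · rw [X_N]
    refine (NN_le hn Q aemeasurable_const).trans (le_of_eq ?_)
    unfold av
    simp only [enorm_one]
    rw [lintegral_one, Measure.restrict_apply_univ,
      ENNReal.inv_mul_cancel Q.vol_pos.ne' Q.vol_lt_top.ne, mul_one]

lemma bmoToBmoX (hn : 0 < n) : BmoToBmoX (X hn) := by
  have hA : 1 + (kap n)⁻¹ ≠ ∞ := ENNReal.add_ne_top.2
    ⟨by norm_num, ENNReal.inv_ne_top.2 (kap_ne_zero n)⟩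
  refine ⟨(1 + (kap n)⁻¹).toNNReal, fun f hf _ => iSup_le fun Q => ?_⟩
  rw [ENNReal.coe_toNNReal hA]
  refine (NN_le hn Q (hf.aestronglyMeasurable.aemeasurable.restrict.sub_const _)).trans ?_
  refine mul_le_mul_right ?_ _
  exact le_iSup (fun Q : Cube n => (volume Q.set)⁻¹ * ∫⁻ x in Q.set, ‖f x - mean f Q‖ₑ) Q

lemma continuous_f₀ (hn : 0 < n) : Continuous (f₀ hn) := continuous_apply _

/-- the mean of the coordinate function -/
lemma mean_f₀ (hn : 0 < n) (Q : Cube n) : mean (f₀ hn) Q = Q.c ⟨0, hn⟩ := by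
  have hloc : LocallyIntegrable (f₀ hn) := (continuous_f₀ hn).locallyIntegrable
  have hint := integrableOn_cube hloc Q
  set g : (Fin n → ℝ) → ℝ := Q.set.indicator fun x => x ⟨0, hn⟩ - Q.c ⟨0, hn⟩ with hg
  have hrefl : ∀ x, g ((2 : ℝ) • Q.c - x) = - g x := by
    intro x
    have hmem : (2 : ℝ) • Q.c - x ∈ Q.set ↔ x ∈ Q.set := by
      simp only [Cube.set, mem_ofPred_eq, Pi.sub_apply, Pi.smul_apply, smul_eq_mul]
      refine forall_congr' fun i => ?_
      rw [show 2 * Q.c i - x i - Q.c i = -(x i - Q.c i) by ring, abs_neg]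
    by_cases hx : x ∈ Q.set
    · rw [hg, Set.indicator_of_mem (hmem.2 hx), Set.indicator_of_mem hx]
      simp only [Pi.sub_apply, Pi.smul_apply, smul_eq_mul]
      ring
    · rw [hg, Set.indicator_of_notMem (fun h => hx (hmem.1 h)), Set.indicator_of_notMem hx, neg_zero]
  have h0 : ∫ x, g x = 0 := by
    have h1 := integral_sub_left_eq_self g (volume : Measure (Fin n → ℝ)) ((2 : ℝ) • Q.c)
    simp only [hrefl, integral_neg] at h1
    linarith
  rw [hg, integral_indicator Q.measurableSet] at h0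
  have h1 : ∫ x in Q.set, (x ⟨0, hn⟩ - Q.c ⟨0, hn⟩) =
      (∫ x in Q.set, f₀ hn x) - volume.real Q.set * Q.c ⟨0, hn⟩ := by
    rw [show (fun x : Fin n → ℝ => x ⟨0, hn⟩ - Q.c ⟨0, hn⟩) = fun x => f₀ hn x - Q.c ⟨0, hn⟩ from rfl,
      integral_sub hint (integrableOn_const (hs := Q.vol_lt_top.ne)), setIntegral_const, smul_eq_mul]
  rw [h0] at h1
  have hvol : volume.real Q.set ≠ 0 := (ENNReal.toReal_pos Q.vol_pos.ne' Q.vol_lt_top.ne).ne'
  rw [mean, setAverage_eq, smul_eq_mul]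
  have h2 : ∫ x in Q.set, f₀ hn x = volume.real Q.set * Q.c ⟨0, hn⟩ := by linarith
  rw [h2, ← mul_assoc, inv_mul_cancel₀ hvol, one_mul]

/-- the `BMO_X` norm of the coordinate function -/
lemma bmoX_f₀ (hn : 0 < n) : bmoX (X hn) (f₀ hn) ≤ 2 := by
  refine iSup_le fun Q => ?_
  have hr := Q.pos
  rw [X_N, mean_f₀ hn Q]
  unfold NN
  have h1 : ep Q * av Q (fun x => f₀ hn x - Q.c ⟨0, hn⟩) ≤ 1 := by
    have h2 : av Q (fun x => f₀ hn x - Q.c ⟨0, hn⟩) ≤ ENNReal.ofReal Q.r := by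
      unfold av
      calc (volume Q.set)⁻¹ * ∫⁻ x in Q.set, ‖f₀ hn x - Q.c ⟨0, hn⟩‖ₑ
          ≤ (volume Q.set)⁻¹ * ∫⁻ x in Q.set, ENNReal.ofReal Q.r := by
            refine mul_le_mul_right ?_ _
            refine setLIntegral_mono' Q.measurableSet fun x hx => ?_
            rw [Real.enorm_eq_ofReal_abs]
            exact ENNReal.ofReal_le_ofReal (hx ⟨0, hn⟩)
        _ = ENNReal.ofReal Q.r := by
            rw [lintegral_const, Measure.restrict_apply_univ, mul_comm (ENNReal.ofReal Q.r),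
              ← mul_assoc, ENNReal.inv_mul_cancel Q.vol_pos.ne' Q.vol_lt_top.ne, one_mul]
    refine (mul_le_mul_right h2 _).trans ?_
    unfold ep
    rw [← ENNReal.ofReal_mul (by positivity), ENNReal.ofReal_le_one, one_div_mul_eq_div,
      div_le_one (by positivity)]
    linarith
  have h3 : q hn Q (fun x => f₀ hn x - Q.c ⟨0, hn⟩) ≤ 1 := by
    refine iSup₂_le fun t ht => ?_
    by_contra hcon
    rw [not_le] at hcon
    refine absurd ht (not_lt.2 (measure_mono ?_))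
    intro x hx
    have hx' : t < ‖f₀ hn x - Q.c ⟨0, hn⟩‖ₑ := hx
    have h4 : (1 : ℝ≥0∞) < ‖f₀ hn x - Q.c ⟨0, hn⟩‖ₑ := hcon.trans hx'
    rw [Real.enorm_eq_ofReal_abs, ENNReal.one_lt_ofReal] at h4
    show min (1 / 2) (Q.r / 2) < |x ⟨0, hn⟩ - Q.c ⟨0, hn⟩|
    refine lt_of_le_of_lt (min_le_left _ _) ?_
    have : |f₀ hn x - Q.c ⟨0, hn⟩| = |x ⟨0, hn⟩ - Q.c ⟨0, hn⟩| := rfl
    linarith
  calc _ ≤ (1 : ℝ≥0∞) + 1 := add_le_add h1 h3
    _ = 2 := by norm_num

/-- the coordinate function has large mean oscillation on large cubes -/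
lemma bmo_f₀ (hn : 0 < n) (R : ℝ) (hR : 0 < R) :
    kap n * ENNReal.ofReal (1 / 2 * R) ≤ bmo (f₀ hn) := by
  let Q : Cube n := ⟨0, R, hR⟩
  refine le_trans ?_ (le_iSup (fun Q : Cube n => (volume Q.set)⁻¹ *
    ∫⁻ x in Q.set, ‖f₀ hn x - mean (f₀ hn) Q‖ₑ) Q)
  have hsub := sub_p Q
  have hint : volume Q.set * (kap n * ENNReal.ofReal (1 / 2 * R)) ≤
      ∫⁻ x in Q.set, ‖f₀ hn x - mean (f₀ hn) Q‖ₑ := by
    rw [mean_f₀]
    calc volume Q.set * (kap n * ENNReal.ofReal (1 / 2 * R))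
        = ENNReal.ofReal (1 / 2 * R) *
            volume (closedBall (fun i => Q.c i + 3 / 4 * Q.r) (1 / 8 * Q.r)) := by
          rw [vol_ball_mul _ Q.c Q.pos.le (by norm_num), ← Q.set_eq]
          unfold kap
          ring
      _ = ∫⁻ x in closedBall (fun i => Q.c i + 3 / 4 * Q.r) (1 / 8 * Q.r),
            ENNReal.ofReal (1 / 2 * R) := by
          rw [lintegral_const, Measure.restrict_apply_univ]
      _ ≤ ∫⁻ x in closedBall (fun i => Q.c i + 3 / 4 * Q.r) (1 / 8 * Q.r),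
            ‖f₀ hn x - Q.c ⟨0, hn⟩‖ₑ := by
          refine setLIntegral_mono' isClosed_closedBall.measurableSet fun x hx => ?_
          rw [Real.enorm_eq_ofReal_abs]
          refine ENNReal.ofReal_le_ofReal (le_trans ?_ (le_abs_self _))
          rw [mem_closedBall, dist_pi_le_iff (by have := Q.pos; positivity)] at hx
          have h2 := hx ⟨0, hn⟩
          rw [Real.dist_eq, abs_le] at h2
          have h3 : Q.r = R := rfl
          have h4 : f₀ hn x = x ⟨0, hn⟩ := rfl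
          rw [h4]
          rw [h3] at h2
          linarith [h2.1]
      _ ≤ _ := lintegral_mono_set hsub
  calc kap n * ENNReal.ofReal (1 / 2 * R)
      = (volume Q.set)⁻¹ * (volume Q.set * (kap n * ENNReal.ofReal (1 / 2 * R))) := by
        rw [← mul_assoc, ENNReal.inv_mul_cancel Q.vol_pos.ne' Q.vol_lt_top.ne, one_mul]
    _ ≤ _ := mul_le_mul_right hint _

theorem result (n : ℕ) (hn : 0 < n) : ∃ X : Family n, Normalized X ∧ BmoToBmoX X ∧
    ¬ BmoXToBmo X := by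
  refine ⟨X hn, normalized_X hn, bmoToBmoX hn, ?_⟩
  rintro ⟨C, hC⟩
  have h1 := hC (f₀ hn) (continuous_f₀ hn).locallyIntegrable
    ((bmoX_f₀ hn).trans_lt (by norm_num))
  have h2 : bmo (f₀ hn) ≤ C * 2 := h1.trans (mul_le_mul_right (bmoX_f₀ hn) _)
  have hpos : (0 : ℝ) < (1 / 8) ^ n := by positivity
  have hC0 : (0 : ℝ) ≤ C := C.2
  set R : ℝ := 2 * ((2 * C + 1) / (1 / 8) ^ n) with hR
  have hR0 : 0 < R := by positivity
  have h3 := (bmo_f₀ hn R hR0).trans h2
  unfold kap at h3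
  rw [← ENNReal.ofReal_mul hpos.le] at h3
  have h4 : (1 / 8 : ℝ) ^ n * (1 / 2 * R) ≤ C * 2 := by
    have hfin : (C : ℝ≥0∞) * 2 ≠ ∞ := ENNReal.mul_ne_top ENNReal.coe_ne_top (by norm_num)
    have := (ENNReal.ofReal_le_iff_le_toReal hfin).1 h3
    simpa using this
  have h5 : (1 / 8 : ℝ) ^ n * (1 / 2 * R) = 2 * C + 1 := by
    rw [hR]
    field_simp
  rw [h5] at h4
  linarith

end Pool.Agent.Results.MP_ea8870_an.NonUniform
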