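import Mathlib
import Pool.Agent.V11101.BmoRev

/-!
# `BMO ↪ BMO_X` implies `BMO_X ↪ BMO`
-/

namespace Pool.Agent.Results.MP_ea8870_an.ReverseEmbedding

open Pool.Agent.V11101.BmoX

/-- For a normalized family of quasi-Banach function spaces over the cubes of `ℝⁿ`, with uniformly
bounded quasi-triangle constants, the embedding `BMO ↪ BMO_X` implies `BMO_X ↪ BMO`. -/
theorem result (n : ℕ) (hn : 0 < n) (X : Family n) (hX : Normalized X) (hU : UniformQuasi X)
    (h : BmoToBmoX X) : BmoXToBmo X :=
  reverse_embedding n hn X hX hU h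

end Pool.Agent.Results.MP_ea8870_an.ReverseEmbedding
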