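import Mathlib
import Pool.Agent.V11101.BmoCtor
import Pool.Agent.V11101.BmoRev

/-!
# `BMO ↪ BMO_X` does not imply `BMO*_X ↪ BMO`
-/

open MeasureTheory Set Metric Filter Topology
open scoped ENNReal NNReal

namespace Pool.Agent.Results.MP_ea8870_an.StarFails

open Pool.Agent.V11101.BmoX

variable {n : ℕ}

/-- the dyadic level of a point -/
noncomputable def L (x : Fin n → ℝ) : ℕ := Nat.log 2 ⌊‖x‖⌋₊

/-- the function -/
noncomputable def f₀ (x : Fin n → ℝ) : ℝ := (L x : ℝ) ^ 2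

lemma measurable_L : Measurable (L : (Fin n → ℝ) → ℕ) := by
  have h1 : Measurable fun x : Fin n → ℝ => ⌊‖x‖⌋₊ := Nat.measurable_floor.comp measurable_norm
  exact (measurable_from_nat (f := Nat.log 2)).comp h1

lemma measurable_f₀ : Measurable (f₀ : (Fin n → ℝ) → ℝ) := by
  have h1 : Measurable fun m : ℕ => (m : ℝ) ^ 2 := measurable_from_nat
  exact h1.comp measurable_L

lemma L_mono {x y : Fin n → ℝ} (h : ‖x‖ ≤ ‖y‖) : L x ≤ L y :=
  Nat.log_mono_right (Nat.floor_mono h)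

/-- most of a cube lies in few dyadic levels -/
lemma exists_level (hn : 0 < n) (Q : Cube n) :
    ∃ m : ℕ, volume Q.set / 10 ≤ volume (Q.set ∩ {x | L x = m}) := by
  classical
  set M : ℝ := ‖Q.c‖ + Q.r with hM
  have hr := Q.pos
  have hM0 : 0 < M := by positivity
  set K := Nat.log 2 ⌊M⌋₊ with hK
  have hQle : ∀ x ∈ Q.set, ‖x‖ ≤ M := by
    intro x hx
    rw [Q.set_eq, mem_closedBall, dist_eq_norm] at hx
    have : ‖x‖ ≤ ‖x - Q.c‖ + ‖Q.c‖ := by
      calc ‖x‖ = ‖(x - Q.c) + Q.c‖ := by rw [sub_add_cancel]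
        _ ≤ _ := norm_add_le _ _
    linarith
  have hQge : ∀ x ∈ Q.set, ‖Q.c‖ - Q.r ≤ ‖x‖ := by
    intro x hx
    rw [Q.set_eq, mem_closedBall, dist_comm, dist_eq_norm] at hx
    have : ‖Q.c‖ ≤ ‖Q.c - x‖ + ‖x‖ := by
      calc ‖Q.c‖ = ‖(Q.c - x) + x‖ := by rw [sub_add_cancel]
        _ ≤ _ := norm_add_le _ _
    linarith
  -- the part near the origin
  have hnear : volume (Q.set ∩ {x | ‖x‖ < M / 8}) ≤ volume Q.set / 2 := by
    rcases le_or_gt (M / 4) Q.r with h | h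
    · have h1 : Q.set ∩ {x | ‖x‖ < M / 8} ⊆ closedBall 0 (1 / 2 * Q.r) := by
        rintro x ⟨_, hx⟩
        rw [mem_closedBall, dist_zero_right]
        have hx' : ‖x‖ < M / 8 := hx
        linarith
      refine (measure_mono h1).trans ?_
      rw [vol_ball_mul 0 Q.c hr.le (by norm_num), ← Q.set_eq, ENNReal.div_eq_inv_mul]
      refine mul_le_mul_left ?_ _
      have : ((1 : ℝ) / 2) ^ n ≤ 1 / 2 := by
        calc ((1 : ℝ) / 2) ^ n ≤ (1 / 2) ^ 1 :=
              pow_le_pow_of_le_one (by norm_num) (by norm_num) hn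
          _ = 1 / 2 := pow_one _
      calc ENNReal.ofReal ((1 / 2) ^ n) ≤ ENNReal.ofReal (1 / 2) := ENNReal.ofReal_le_ofReal this
        _ = 2⁻¹ := by
          rw [one_div, ENNReal.ofReal_inv_of_pos (by norm_num)]
          norm_num
    · have : Q.set ∩ {x | ‖x‖ < M / 8} = ∅ := by
        rw [Set.eq_empty_iff_forall_notMem]
        rintro x ⟨hxQ, hx⟩
        have hx' : ‖x‖ < M / 8 := hx
        have := hQge x hxQ
        linarith
      rw [this, measure_empty]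
      exact zero_le
  -- the rest is in few levels
  have hfar : Q.set ⊆ (Q.set ∩ {x | ‖x‖ < M / 8}) ∪
      ⋃ m ∈ Finset.Icc (K - 4) K, (Q.set ∩ {x | L x = m}) := by
    intro x hx
    rcases lt_or_ge ‖x‖ (M / 8) with h | h
    · exact Or.inl ⟨hx, h⟩
    refine Or.inr ?_
    simp only [mem_iUnion]
    refine ⟨L x, Finset.mem_Icc.2 ⟨?_, ?_⟩, hx, rfl⟩
    · -- lower bound
      have h1 : ⌊M⌋₊ ≤ 8 * (⌊‖x‖⌋₊ + 1) := by
        have h2 : M < 8 * ((⌊‖x‖⌋₊ : ℝ) + 1) := by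
          have := Nat.lt_floor_add_one ‖x‖
          linarith
        have h3 : (⌊M⌋₊ : ℝ) ≤ M := Nat.floor_le hM0.le
        have h4 : (⌊M⌋₊ : ℝ) ≤ ((8 * (⌊‖x‖⌋₊ + 1) : ℕ) : ℝ) := by push_cast; linarith
        exact_mod_cast h4
      have h2 : K ≤ L x + 4 := by
        rcases Nat.eq_zero_or_pos ⌊‖x‖⌋₊ with h0 | h0
        · rw [h0] at h1
          have : K ≤ Nat.log 2 8 := Nat.log_mono_right h1
          have h8 : Nat.log 2 8 = 3 := by
            rw [Nat.log_eq_iff (Or.inl (by norm_num))]; norm_num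
          omega
        · have h3 : ⌊M⌋₊ ≤ ⌊‖x‖⌋₊ * 2 * 2 * 2 * 2 := by omega
          have h4 : K ≤ Nat.log 2 (⌊‖x‖⌋₊ * 2 * 2 * 2 * 2) := Nat.log_mono_right h3
          rw [Nat.log_mul_base (by norm_num) (by omega), Nat.log_mul_base (by norm_num) (by omega),
            Nat.log_mul_base (by norm_num) (by omega), Nat.log_mul_base (by norm_num) (by omega)] at h4
          exact h4
      omega
    · exact Nat.log_mono_right (Nat.floor_mono (hQle x hx))
  by_contra hcon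
  push Not at hcon
  have hcard : (Finset.Icc (K - 4) K).card ≤ 5 := by
    rw [Nat.card_Icc]; omega
  have hsum : volume Q.set ≤ volume Q.set / 2 +
      ∑ m ∈ Finset.Icc (K - 4) K, volume (Q.set ∩ {x | L x = m}) := by
    refine (measure_mono hfar).trans ((measure_union_le _ _).trans ?_)
    exact add_le_add hnear (measure_biUnion_finset_le _ _)
  have hlt : ∑ m ∈ Finset.Icc (K - 4) K, volume (Q.set ∩ {x | L x = m}) < volume Q.set / 2 := by
    have hne : (Finset.Icc (K - 4) K).Nonempty := ⟨K, Finset.mem_Icc.2 ⟨by omega, le_rfl⟩⟩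
    calc ∑ m ∈ Finset.Icc (K - 4) K, volume (Q.set ∩ {x | L x = m})
        < ∑ m ∈ Finset.Icc (K - 4) K, volume Q.set / 10 :=
          ENNReal.sum_lt_sum_of_nonempty hne fun m _ => hcon m
      _ = (Finset.Icc (K - 4) K).card * (volume Q.set / 10) := by
          rw [Finset.sum_const, nsmul_eq_mul]
      _ ≤ 5 * (volume Q.set / 10) := by
          refine mul_le_mul_left ?_ _
          exact_mod_cast hcard
      _ = volume Q.set / 2 := by
          rw [ENNReal.div_eq_inv_mul, ENNReal.div_eq_inv_mul, ← mul_assoc]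
          congr 1
          rw [show (10 : ℝ≥0∞) = 5 * 2 by norm_num, ENNReal.mul_inv (by norm_num) (by norm_num),
            ← mul_assoc, ENNReal.mul_inv_cancel (by norm_num) (by norm_num), one_mul]
  have hh : volume Q.set / 2 ≠ ∞ := ENNReal.div_ne_top Q.vol_lt_top.ne (by norm_num)
  have := hsum.trans_lt (ENNReal.add_lt_add_left hh hlt)
  rw [ENNReal.add_halves] at this
  exact lt_irrefl _ this

/-- the majority level of a cube -/
noncomputable def lev (hn : 0 < n) (Q : Cube n) : ℕ := (exists_level hn Q).choose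

lemma lev_spec (hn : 0 < n) (Q : Cube n) :
    volume Q.set / 10 ≤ volume (Q.set ∩ {x | L x = lev hn Q}) := (exists_level hn Q).choose_spec

/-- the oscillation of `f₀` over `Q` from its majority value -/
noncomputable def osc (hn : 0 < n) (Q : Cube n) : ℝ≥0∞ :=
  (volume Q.set)⁻¹ * ∫⁻ x in Q.set, ‖f₀ x - (lev hn Q : ℝ) ^ 2‖ₑ

lemma osc_lt_top (hn : 0 < n) (Q : Cube n) : osc hn Q < ∞ := by
  refine ENNReal.mul_lt_top (ENNReal.inv_lt_top.2 Q.vol_pos) ?_
  set M : ℝ := ‖Q.c‖ + Q.r with hM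
  have hbound : ∀ x ∈ Q.set, ‖f₀ x - (lev hn Q : ℝ) ^ 2‖ₑ ≤
      ENNReal.ofReal (((Nat.log 2 ⌊M⌋₊ : ℕ) : ℝ) ^ 2 + (lev hn Q : ℝ) ^ 2) := by
    intro x hx
    rw [Real.enorm_eq_ofReal_abs]
    refine ENNReal.ofReal_le_ofReal ((abs_sub _ _).trans ?_)
    rw [abs_of_nonneg (sq_nonneg (lev hn Q : ℝ)), abs_of_nonneg (show 0 ≤ f₀ x from sq_nonneg _)]
    have h1 : ‖x‖ ≤ M := by
      rw [Q.set_eq, mem_closedBall, dist_eq_norm] at hx
      have : ‖x‖ ≤ ‖x - Q.c‖ + ‖Q.c‖ := by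
        calc ‖x‖ = ‖(x - Q.c) + Q.c‖ := by rw [sub_add_cancel]
          _ ≤ _ := norm_add_le _ _
      linarith
    have h2 : L x ≤ Nat.log 2 ⌊M⌋₊ := Nat.log_mono_right (Nat.floor_mono h1)
    have h3 : (L x : ℝ) ≤ ((Nat.log 2 ⌊M⌋₊ : ℕ) : ℝ) := by exact_mod_cast h2
    unfold f₀
    gcongr
  calc ∫⁻ x in Q.set, ‖f₀ x - (lev hn Q : ℝ) ^ 2‖ₑ
      ≤ ∫⁻ x in Q.set, ENNReal.ofReal (((Nat.log 2 ⌊M⌋₊ : ℕ) : ℝ) ^ 2 + (lev hn Q : ℝ) ^ 2) :=
        setLIntegral_mono' Q.measurableSet hbound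
    _ = ENNReal.ofReal (((Nat.log 2 ⌊M⌋₊ : ℕ) : ℝ) ^ 2 + (lev hn Q : ℝ) ^ 2) * volume Q.set := by
        rw [lintegral_const, Measure.restrict_apply_univ]
    _ < ∞ := ENNReal.mul_lt_top ENNReal.ofReal_lt_top Q.vol_lt_top

/-- the small weight outside of the majority set -/
noncomputable def ep (hn : 0 < n) (Q : Cube n) : ℝ≥0∞ := (1 + osc hn Q)⁻¹

lemma ep_ne_zero (hn : 0 < n) (Q : Cube n) : ep hn Q ≠ 0 :=
  ENNReal.inv_ne_zero.2 (ENNReal.add_ne_top.2 ⟨by norm_num, (osc_lt_top hn Q).ne⟩)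

lemma ep_le_one (hn : 0 < n) (Q : Cube n) : ep hn Q ≤ 1 :=
  ENNReal.inv_le_one.2 le_self_add

/-- the weight -/
noncomputable def wt (hn : 0 < n) (Q : Cube n) (x : Fin n → ℝ) : ℝ≥0∞ :=
  (volume Q.set)⁻¹ * (({x | L x = lev hn Q} : Set (Fin n → ℝ)).indicator (fun _ => 1) x + ep hn Q)

lemma measurableSet_level (m : ℕ) : MeasurableSet ({x | L x = m} : Set (Fin n → ℝ)) :=
  measurable_L (measurableSet_singleton m)

lemma measurable_wt (hn : 0 < n) (Q : Cube n) : Measurable (wt hn Q) := by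
  unfold wt
  exact ((measurable_const.indicator (measurableSet_level _)).add_const _).const_mul _

lemma wt_ge (hn : 0 < n) (Q : Cube n) (x : Fin n → ℝ) : (volume Q.set)⁻¹ * ep hn Q ≤ wt hn Q x :=
  mul_le_mul_right le_add_self _

lemma wt_le (hn : 0 < n) (Q : Cube n) (x : Fin n → ℝ) : wt hn Q x ≤ (volume Q.set)⁻¹ * 2 := by
  refine mul_le_mul_right ?_ _
  calc _ ≤ (1 : ℝ≥0∞) + 1 := by
        refine add_le_add ?_ (ep_le_one hn Q)
        by_cases h : x ∈ ({x | L x = lev hn Q} : Set (Fin n → ℝ))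
        · rw [Set.indicator_of_mem h]
        · rw [Set.indicator_of_notMem h]; exact zero_le
    _ = 2 := by norm_num

/-- the family of weighted `L¹` spaces -/
noncomputable def X (hn : 0 < n) : Family n := fun Q =>
  wL1 Q (wt hn Q) (measurable_wt hn Q) ((volume Q.set)⁻¹ * ep hn Q) ((volume Q.set)⁻¹ * 2)
    (mul_ne_zero (ENNReal.inv_ne_zero.2 Q.vol_lt_top.ne) (ep_ne_zero hn Q))
    (ENNReal.mul_ne_top (ENNReal.inv_ne_top.2 Q.vol_pos.ne') (by norm_num))
    (wt_ge hn Q) (wt_le hn Q)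

lemma X_N (hn : 0 < n) (Q : Cube n) (f : (Fin n → ℝ) → ℝ) :
    (X hn Q).N f = ∫⁻ x in Q.set, wt hn Q x * ‖f x‖ₑ := rfl

lemma X_N_le (hn : 0 < n) (Q : Cube n) (f : (Fin n → ℝ) → ℝ) :
    (X hn Q).N f ≤ 2 * ((volume Q.set)⁻¹ * ∫⁻ x in Q.set, ‖f x‖ₑ) := by
  rw [X_N]
  calc ∫⁻ x in Q.set, wt hn Q x * ‖f x‖ₑ ≤ ∫⁻ x in Q.set, ((volume Q.set)⁻¹ * 2) * ‖f x‖ₑ :=
        lintegral_mono fun x => mul_le_mul_left (wt_le hn Q x) _
    _ = ((volume Q.set)⁻¹ * 2) * ∫⁻ x in Q.set, ‖f x‖ₑ := by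
        rw [lintegral_const_mul']
        exact ENNReal.mul_ne_top (ENNReal.inv_ne_top.2 Q.vol_pos.ne') (by norm_num)
    _ = _ := by ring

lemma normalized_X (hn : 0 < n) : Normalized (X hn) := by
  refine ⟨10⁻¹, 2, by norm_num, by norm_num, fun Q => ⟨?_, ?_⟩⟩
  · rw [X_N]
    have h1 : ∀ x, (volume Q.set)⁻¹ *
        ({x | L x = lev hn Q} : Set (Fin n → ℝ)).indicator (fun _ => 1) x ≤
        wt hn Q x * ‖(1 : ℝ)‖ₑ := by
      intro x
      rw [enorm_one, mul_one]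
      exact mul_le_mul_right le_self_add _
    refine le_trans ?_ (lintegral_mono h1)
    rw [lintegral_const_mul' _ _ (ENNReal.inv_ne_top.2 Q.vol_pos.ne'),
      lintegral_indicator (measurableSet_level _), lintegral_one, Measure.restrict_apply_univ,
      Measure.restrict_apply' Q.measurableSet, inter_comm]
    have h2 := lev_spec hn Q
    calc (10 : ℝ≥0∞)⁻¹ = (volume Q.set)⁻¹ * (volume Q.set / 10) := by
          rw [div_eq_mul_inv, ← mul_assoc, ENNReal.inv_mul_cancel Q.vol_pos.ne' Q.vol_lt_top.ne,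
            one_mul]
      _ ≤ _ := mul_le_mul_right h2 _
  · refine (X_N_le hn Q _).trans ?_
    rw [enorm_one, lintegral_one, Measure.restrict_apply_univ,
      ENNReal.inv_mul_cancel Q.vol_pos.ne' Q.vol_lt_top.ne, mul_one]

lemma bmoToBmoX (hn : 0 < n) : BmoToBmoX (X hn) := by
  refine ⟨2, fun f _ _ => iSup_le fun Q => ?_⟩
  refine (X_N_le hn Q _).trans ?_
  refine mul_le_mul_right ?_ _
  exact le_iSup (fun Q : Cube n => (volume Q.set)⁻¹ * ∫⁻ x in Q.set, ‖f x - mean f Q‖ₑ) Q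

lemma star_le (hn : 0 < n) : bmoXStar (X hn) f₀ ≤ 1 := by
  refine iSup_le fun Q => ?_
  refine (iInf_le _ ((lev hn Q : ℝ) ^ 2)).trans ?_
  rw [X_N]
  have h1 : ∀ x, wt hn Q x * ‖f₀ x - (lev hn Q : ℝ) ^ 2‖ₑ =
      ep hn Q * ((volume Q.set)⁻¹ * ‖f₀ x - (lev hn Q : ℝ) ^ 2‖ₑ) := by
    intro x
    unfold wt
    by_cases h : x ∈ ({x | L x = lev hn Q} : Set (Fin n → ℝ))
    · have h' : L x = lev hn Q := h
      have : f₀ x - (lev hn Q : ℝ) ^ 2 = 0 := by unfold f₀; rw [h', sub_self]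
      rw [this, enorm_zero]; ring
    · rw [Set.indicator_of_notMem h, zero_add]; ring
  simp only [h1]
  rw [lintegral_const_mul' _ _ ((ep_le_one hn Q).trans_lt ENNReal.one_lt_top).ne,
    lintegral_const_mul' _ _ (ENNReal.inv_ne_top.2 Q.vol_pos.ne')]
  show ep hn Q * osc hn Q ≤ 1
  unfold ep
  have h2 : osc hn Q ≤ 1 + osc hn Q := le_add_self
  calc (1 + osc hn Q)⁻¹ * osc hn Q ≤ (1 + osc hn Q)⁻¹ * (1 + osc hn Q) := mul_le_mul_right h2 _
    _ ≤ 1 := ENNReal.inv_mul_le_one _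

/-- `f₀` has unbounded mean oscillation -/
lemma bmo_f₀ (hn : 0 < n) (k : ℕ) :
    ENNReal.ofReal ((1 / 4) ^ n) * ENNReal.ofReal (2 * ((k : ℝ) + 1) - 1) ≤
      bmo (f₀ : (Fin n → ℝ) → ℝ) := by
  have : Nonempty (Fin n) := ⟨⟨0, hn⟩⟩
  -- the cube
  let Q : Cube n := ⟨fun _ => (2 : ℝ) ^ (k + 1), 1, one_pos⟩
  set cp : Fin n → ℝ := fun _ => (2 : ℝ) ^ (k + 1) + 1 / 2 with hcp
  set cm : Fin n → ℝ := fun _ => (2 : ℝ) ^ (k + 1) - 1 / 2 with hcm
  have hpow : (2 : ℝ) ≤ 2 ^ (k + 1) := by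
    calc (2 : ℝ) = 2 ^ 1 := (pow_one _).symm
      _ ≤ 2 ^ (k + 1) := pow_le_pow_right₀ (by norm_num) (by omega)
  have hpow' : (2 : ℝ) ^ k * 2 = 2 ^ (k + 1) := (pow_succ _ _).symm
  have hpowk : (1 : ℝ) ≤ 2 ^ k := one_le_pow₀ (by norm_num)
  have hp : ∀ x ∈ closedBall cp (1 / 4 * 1), f₀ x = ((k : ℝ) + 1) ^ 2 := by
    intro x hx
    rw [mem_closedBall, dist_pi_le_iff (by norm_num)] at hx
    have hlow : (2 : ℝ) ^ (k + 1) ≤ ‖x‖ := by
      have h1 := hx ⟨0, hn⟩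
      rw [Real.dist_eq, abs_le] at h1
      simp only [hcp] at h1
      calc (2 : ℝ) ^ (k + 1) ≤ x ⟨0, hn⟩ := by linarith [h1.1]
        _ ≤ ‖x ⟨0, hn⟩‖ := Real.le_norm_self _
        _ ≤ ‖x‖ := norm_le_pi_norm _ _
    have hup : ‖x‖ ≤ (2 : ℝ) ^ (k + 1) + 3 / 4 := by
      rw [pi_norm_le_iff_of_nonneg (by positivity)]
      intro i
      have h1 := hx i
      rw [Real.dist_eq, abs_le] at h1
      simp only [hcp] at h1
      rw [Real.norm_eq_abs, abs_le]
      constructor <;> linarith [h1.1, h1.2]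
    have hfl : ⌊‖x‖⌋₊ = 2 ^ (k + 1) := by
      rw [Nat.floor_eq_iff (norm_nonneg _)]
      push_cast
      constructor <;> linarith
    unfold f₀ L
    rw [hfl, Nat.log_pow (by norm_num)]
    push_cast
    ring
  have hm : ∀ x ∈ closedBall cm (1 / 4 * 1), f₀ x = (k : ℝ) ^ 2 := by
    intro x hx
    rw [mem_closedBall, dist_pi_le_iff (by norm_num)] at hx
    have hlow : (2 : ℝ) ^ (k + 1) - 1 ≤ ‖x‖ := by
      have h1 := hx ⟨0, hn⟩
      rw [Real.dist_eq, abs_le] at h1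
      simp only [hcm] at h1
      calc (2 : ℝ) ^ (k + 1) - 1 ≤ x ⟨0, hn⟩ := by linarith [h1.1]
        _ ≤ ‖x ⟨0, hn⟩‖ := Real.le_norm_self _
        _ ≤ ‖x‖ := norm_le_pi_norm _ _
    have hup : ‖x‖ ≤ (2 : ℝ) ^ (k + 1) - 1 / 4 := by
      rw [pi_norm_le_iff_of_nonneg (by linarith)]
      intro i
      have h1 := hx i
      rw [Real.dist_eq, abs_le] at h1
      simp only [hcm] at h1
      rw [Real.norm_eq_abs, abs_le]
      constructor <;> linarith [h1.1, h1.2]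
    have hlog : Nat.log 2 ⌊‖x‖⌋₊ = k := by
      rw [Nat.log_eq_iff (Or.inr ⟨by norm_num, ?_⟩)]
      · constructor
        · rw [Nat.le_floor_iff (norm_nonneg _)]
          push_cast
          linarith
        · rw [Nat.floor_lt (norm_nonneg _)]
          push_cast
          linarith
      · have : 0 < ⌊‖x‖⌋₊ := Nat.floor_pos.2 (by linarith)
        omega
    unfold f₀ L
    rw [hlog]
  have hQset : Q.set = closedBall Q.c 1 := Q.set_eq
  have hsubp : closedBall cp (1 / 4 * 1) ⊆ Q.set := by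
    rw [hQset]
    refine closedBall_subset_closedBall' ?_
    have : dist cp Q.c ≤ 1 / 2 := by
      rw [dist_pi_le_iff (by norm_num)]
      intro i
      show |(2 : ℝ) ^ (k + 1) + 1 / 2 - (2 : ℝ) ^ (k + 1)| ≤ 1 / 2
      rw [add_sub_cancel_left, abs_of_pos (by norm_num)]
    linarith
  have hsubm : closedBall cm (1 / 4 * 1) ⊆ Q.set := by
    rw [hQset]
    refine closedBall_subset_closedBall' ?_
    have : dist cm Q.c ≤ 1 / 2 := by
      rw [dist_pi_le_iff (by norm_num)]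
      intro i
      show |(2 : ℝ) ^ (k + 1) - 1 / 2 - (2 : ℝ) ^ (k + 1)| ≤ 1 / 2
      rw [sub_sub_cancel_left, abs_neg, abs_of_pos (by norm_num)]
    linarith
  have hdisj : Disjoint (closedBall cp (1 / 4 * 1)) (closedBall cm (1 / 4 * 1)) := by
    rw [Set.disjoint_left]
    intro x h1 h2
    rw [mem_closedBall, dist_pi_le_iff (by norm_num)] at h1 h2
    have h3 := h1 ⟨0, hn⟩
    have h4 := h2 ⟨0, hn⟩
    rw [Real.dist_eq, abs_le] at h3 h4
    simp only [hcp, hcm] at h3 h4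
    linarith [h3.1, h4.2]
  have hvolp : volume (closedBall cp (1 / 4 * 1)) = ENNReal.ofReal ((1 / 4) ^ n) * volume Q.set := by
    rw [vol_ball_mul cp Q.c (by norm_num) (by norm_num), hQset]
  have hvolm : volume (closedBall cm (1 / 4 * 1)) = ENNReal.ofReal ((1 / 4) ^ n) * volume Q.set := by
    rw [vol_ball_mul cm Q.c (by norm_num) (by norm_num), hQset]
  refine le_trans ?_ (le_iSup (fun Q : Cube n => (volume Q.set)⁻¹ *
    ∫⁻ x in Q.set, ‖f₀ x - mean f₀ Q‖ₑ) Q)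
  set a := mean (f₀ : (Fin n → ℝ) → ℝ) Q with ha
  have hint : volume Q.set * (ENNReal.ofReal ((1 / 4) ^ n) * ENNReal.ofReal (2 * ((k : ℝ) + 1) - 1)) ≤
      ∫⁻ x in Q.set, ‖f₀ x - a‖ₑ := by
    calc volume Q.set * (ENNReal.ofReal ((1 / 4) ^ n) * ENNReal.ofReal (2 * ((k : ℝ) + 1) - 1))
        ≤ volume Q.set * (ENNReal.ofReal ((1 / 4) ^ n) *
            (‖((k : ℝ) + 1) ^ 2 - a‖ₑ + ‖(k : ℝ) ^ 2 - a‖ₑ)) := by
          refine mul_le_mul_right (mul_le_mul_right ?_ _) _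
          rw [Real.enorm_eq_ofReal_abs, Real.enorm_eq_ofReal_abs,
            ← ENNReal.ofReal_add (abs_nonneg _) (abs_nonneg _)]
          refine ENNReal.ofReal_le_ofReal ?_
          have h1 := le_abs_self (((k : ℝ) + 1) ^ 2 - a)
          have h2 := neg_abs_le ((k : ℝ) ^ 2 - a)
          nlinarith
      _ = ‖((k : ℝ) + 1) ^ 2 - a‖ₑ * volume (closedBall cp (1 / 4 * 1)) +
            ‖(k : ℝ) ^ 2 - a‖ₑ * volume (closedBall cm (1 / 4 * 1)) := by
          rw [hvolp, hvolm]; ring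
      _ = (∫⁻ x in closedBall cp (1 / 4 * 1), ‖f₀ x - a‖ₑ) +
            ∫⁻ x in closedBall cm (1 / 4 * 1), ‖f₀ x - a‖ₑ := by
          congr 1
          · rw [setLIntegral_congr_fun isClosed_closedBall.measurableSet
              (g := fun _ => ‖((k : ℝ) + 1) ^ 2 - a‖ₑ) (fun x hx => by rw [hp x hx]),
              lintegral_const, Measure.restrict_apply_univ]
          · rw [setLIntegral_congr_fun isClosed_closedBall.measurableSet
              (g := fun _ => ‖(k : ℝ) ^ 2 - a‖ₑ) (fun x hx => by rw [hm x hx]),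
              lintegral_const, Measure.restrict_apply_univ]
      _ = ∫⁻ x in closedBall cp (1 / 4 * 1) ∪ closedBall cm (1 / 4 * 1), ‖f₀ x - a‖ₑ := by
          rw [lintegral_union isClosed_closedBall.measurableSet hdisj]
      _ ≤ _ := lintegral_mono_set (union_subset hsubp hsubm)
  calc _ = (volume Q.set)⁻¹ * (volume Q.set *
        (ENNReal.ofReal ((1 / 4) ^ n) * ENNReal.ofReal (2 * ((k : ℝ) + 1) - 1))) := by
        rw [← mul_assoc, ENNReal.inv_mul_cancel Q.vol_pos.ne' Q.vol_lt_top.ne, one_mul]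
    _ ≤ _ := mul_le_mul_right hint _

theorem result (n : ℕ) (hn : 0 < n) : ∃ X : Family n, Normalized X ∧
    -- all `X_Q` are Banach function spaces
    (∀ Q, ∀ f g, AEMeasurable f Q.vol → AEMeasurable g Q.vol →
      (X Q).N (fun x => f x + g x) ≤ (X Q).N f + (X Q).N g) ∧
    BmoToBmoX X ∧ BmoXToBmo X ∧ ¬ BmoXStarToBmo X := by
  have htri : ∀ Q, ∀ f g, AEMeasurable f Q.vol → AEMeasurable g Q.vol →
      (X hn Q).N (fun x => f x + g x) ≤ (X hn Q).N f + (X hn Q).N g := by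
    intro Q f g hf hg
    rw [X_N, X_N, X_N]
    have hm : AEMeasurable (fun x => wt hn Q x * ‖f x‖ₑ) Q.vol :=
      (measurable_wt hn Q).aemeasurable.mul hf.enorm
    rw [← lintegral_add_left' hm]
    refine lintegral_mono fun x => ?_
    rw [← mul_add]
    exact mul_le_mul_right (enorm_add_le _ _) _
  refine ⟨X hn, normalized_X hn, htri, bmoToBmoX hn, ?_, ?_⟩
  · refine reverse_embedding n hn (X hn) (normalized_X hn) ⟨1, fun Q f g hf hg => ?_⟩
      (bmoToBmoX hn)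
    rw [ENNReal.coe_one, one_mul]
    exact htri Q f g hf hg
  · rintro ⟨C, hC⟩
    have h1 := (hC f₀ measurable_f₀.aemeasurable ((star_le hn).trans_lt ENNReal.one_lt_top)).2
    have h2 : bmo (f₀ : (Fin n → ℝ) → ℝ) ≤ C := by
      refine h1.trans ?_
      calc (C : ℝ≥0∞) * bmoXStar (X hn) f₀ ≤ C * 1 := mul_le_mul_right (star_le hn) _
        _ = C := mul_one _
    have hpos : (0 : ℝ) < (1 / 4) ^ n := by positivity
    obtain ⟨k, hk⟩ := exists_nat_gt ((C : ℝ) / (1 / 4) ^ n)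
    have h3 := (bmo_f₀ hn k).trans h2
    rw [← ENNReal.ofReal_mul hpos.le] at h3
    have h4 : (1 / 4 : ℝ) ^ n * (2 * ((k : ℝ) + 1) - 1) ≤ C := by
      have := (ENNReal.ofReal_le_iff_le_toReal ENNReal.coe_ne_top).1 h3
      simpa using this
    rw [div_lt_iff₀ hpos] at hk
    have hk0 : (0 : ℝ) ≤ k := Nat.cast_nonneg _
    nlinarith

end Pool.Agent.Results.MP_ea8870_an.StarFails
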